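import Pool.Agent.Lib.MP_329cea_co.Digits
import Pool.Agent.Lib.MP_329cea_co.Rows

set_option autoImplicit false

namespace Pool.Agent.Results.MP_329cea_co.FailsAllDegrees

open Finset Pool.Agent.Lib.MP_329cea_co

/-- The construction for `9 (M + 2) ≤ k ≤ κ p`. -/
lemma large (γ : ℝ) (hγ0 : 0 < γ) (hγ1 : γ < 1) (M : ℕ) (hM : 16 / γ ≤ M) (κ : ℝ)
    (hκ : κ = γ / (16 * ((M : ℝ) + 1) * (1 + (M : ℝ) ^ 2))) (n₀ : ℕ) :
    ∃ P₀ : ℕ, ∀ p : ℕ, p.Prime → P₀ ≤ p → ∀ k : ℕ, 9 * (M + 2) ≤ k → (k : ℝ) ≤ κ * p →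
      ∃ (A : Finset (ZMod p)) (d : ℕ) (F : Finset (ZMod p × ZMod p)),
        n₀ ≤ A.card ∧ (A.card : ℝ) < γ * p / 2 ∧ F ⊆ A ×ˢ A ∧ DegreeLE F d ∧ d + k = A.card ∧
        ∀ B' ⊆ A, ((restrictedSum A B' F).card : ℝ) ≤ 2 * k - 1 - κ * k := by
  classical
  have hM16 : (16 : ℝ) ≤ M := by
    refine le_trans ?_ hM
    rw [le_div_iff₀ hγ0]
    linarith
  have hM16' : 16 ≤ M := by exact_mod_cast hM16
  have hκ0 : 0 < κ := by rw [hκ]; positivity
  have hκ1 : 2 * κ * ((M : ℝ) + 1) * (1 + (M : ℝ) ^ 2) = γ / 8 := by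
    rw [hκ]; field_simp; ring
  have hκ2 : κ * (3 * ((M : ℝ) + 2)) ≤ 1 := by
    have h1 : 3 * ((M : ℝ) + 2) ≤ 16 * ((M : ℝ) + 1) * (1 + (M : ℝ) ^ 2) := by nlinarith
    calc κ * (3 * ((M : ℝ) + 2)) ≤ κ * (16 * ((M : ℝ) + 1) * (1 + (M : ℝ) ^ 2)) :=
          mul_le_mul_of_nonneg_left h1 hκ0.le
      _ = 8 * (2 * κ * ((M : ℝ) + 1) * (1 + (M : ℝ) ^ 2)) := by ring
      _ = γ := by rw [hκ1]; ring
      _ ≤ 1 := hγ1.le
  obtain ⟨Q, hQ⟩ := exists_nat_gt (12 * ((M : ℝ) + 1) / γ)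
  refine ⟨max Q (max (10 * (M + 3)) ((M + 3) * (n₀ + 1))), ?_⟩
  intro p hp hP k hk hkp
  have : NeZero p := ⟨hp.ne_zero⟩
  have hPQ : Q ≤ p := (le_max_left _ _).trans hP
  have hP10 : 10 * (M + 3) ≤ p := (le_max_left _ _).trans ((le_max_right _ _).trans hP)
  have hPn : (M + 3) * (n₀ + 1) ≤ p := (le_max_right _ _).trans ((le_max_right _ _).trans hP)
  -- parameters
  set u : ℕ := k / (3 * (M + 2)) with hu
  set v : ℕ := (k - 2 * u + 2) / 3 with hv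
  set S : ℕ := p / (M + 3) with hS
  have hu1 : 3 * (M + 2) * u ≤ k := by rw [hu]; exact Nat.mul_div_le _ _
  have hu2 : k < 3 * (M + 2) * (u + 1) := by
    rw [hu]; exact Nat.lt_mul_div_succ k (by omega)
  have hu3 : 3 ≤ u := by
    rw [hu, Nat.le_div_iff_mul_le (by omega)]
    linarith
  have huk : 6 * u ≤ k := by
    refine le_trans ?_ hu1
    exact Nat.mul_le_mul_right u (by omega)
  have hv1 : k - 2 * u ≤ 3 * v := by omega
  have hv2 : 3 * v ≤ k - 2 * u + 2 := by omega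
  have hvM : (M + 1) * u ≤ v := by
    have h1 : 3 * (M + 2) * u = 3 * ((M + 1) * u) + 3 * u := by ring
    omega
  have hS1 : (M + 3) * S ≤ p := by rw [hS]; exact Nat.mul_div_le _ _
  have hS2 : p < (M + 3) * (S + 1) := by
    rw [hS]; exact Nat.lt_mul_div_succ p (by omega)
  have hS3 : n₀ ≤ S := by
    by_contra hcon
    have : (M + 3) * (S + 1) ≤ (M + 3) * (n₀ + 1) := Nat.mul_le_mul_left _ (by omega)
    omega
  -- real inequalities
  have hM0 : (0 : ℝ) ≤ M := by linarith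
  have hp0 : (0 : ℝ) < p := by exact_mod_cast hp.pos
  have hS2R : (p : ℝ) < ((M : ℝ) + 3) * ((S : ℝ) + 1) := by exact_mod_cast hS2
  have hSR : (p : ℝ) / ((M : ℝ) + 3) - 1 ≤ S := by
    rw [sub_le_iff_le_add, div_le_iff₀ (by positivity)]
    nlinarith
  have hP10R : 10 * ((M : ℝ) + 3) ≤ p := by exact_mod_cast hP10
  have hkM : 2 * (k : ℝ) * (1 + (M : ℝ) ^ 2) ≤ γ / (8 * ((M : ℝ) + 1)) * p := by
    have h1 : 2 * (k : ℝ) * (1 + (M : ℝ) ^ 2) ≤ 2 * (κ * p) * (1 + (M : ℝ) ^ 2) := by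
      apply mul_le_mul_of_nonneg_right _ (by positivity)
      linarith
    have h2 : 2 * (κ * p) * (1 + (M : ℝ) ^ 2) = γ / (8 * ((M : ℝ) + 1)) * p := by
      rw [hκ]; field_simp; ring
    linarith
  -- the integer W0
  set X : ℤ := (S : ℤ) - 1 - 2 * v - 2 * (u * (M : ℤ) ^ 2) with hX
  set W0 : ℤ := X / 2 with hW0
  have hW1 : 2 * W0 ≤ X := by omega
  have hW2 : X ≤ 2 * W0 + 1 := by omega
  have hXR : (S : ℝ) - 1 - 2 * (k : ℝ) * (1 + (M : ℝ) ^ 2) ≤ (X : ℝ) := by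
    rw [hX]
    push_cast
    have h1 : (v : ℝ) ≤ k := by exact_mod_cast (show v ≤ k by omega)
    have h2 : (u : ℝ) ≤ k := by exact_mod_cast (show u ≤ k by omega)
    have h3 : (u : ℝ) * (M : ℝ) ^ 2 ≤ (k : ℝ) * (M : ℝ) ^ 2 :=
      mul_le_mul_of_nonneg_right h2 (by positivity)
    linarith
  have hW2R : (X : ℝ) ≤ 2 * (W0 : ℝ) + 1 := by exact_mod_cast hW2
  have hW0pos : 1 ≤ W0 := by
    have h1 : (2 : ℝ) < 2 * (W0 : ℝ) + 1 := by
      have h2 : γ / (8 * ((M : ℝ) + 1)) * p ≤ p / (2 * ((M : ℝ) + 3)) := by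
        rw [div_mul_eq_mul_div, div_le_div_iff₀ (by positivity) (by positivity)]
        have h5 : γ * (2 * ((M : ℝ) + 3)) ≤ 8 * ((M : ℝ) + 1) := by nlinarith
        nlinarith [mul_le_mul_of_nonneg_left h5 hp0.le]
      have h3 : p / ((M : ℝ) + 3) = p / (2 * ((M : ℝ) + 3)) + p / (2 * ((M : ℝ) + 3)) := by
        field_simp; ring
      have h4 : 5 ≤ p / (2 * ((M : ℝ) + 3)) := by
        rw [le_div_iff₀ (by positivity)]
        linarith
      linarith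
    have h6 : (1 : ℤ) < 2 * W0 := by
      have : (1 : ℝ) < ((2 * W0 : ℤ) : ℝ) := by push_cast; linarith
      exact_mod_cast this
    omega
  obtain ⟨C, t0, T, hC, hcount, hT, hCl, hCu⟩ := rows (p := p) (M : ℤ) (u : ℤ) (v : ℤ) W0 (S : ℤ)
    (by omega) (by omega) (by exact_mod_cast hvM) hW0pos (by rw [hX] at hW1; linarith)
    (by exact_mod_cast hS1)
  have hCl' : ((M : ℝ) + 1) * (2 * (W0 : ℝ)) ≤ C.card := by exact_mod_cast hCl
  have hcompl : Cᶜ.card = p - C.card := by rw [Finset.card_compl, ZMod.card]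
  have hCp : C.card ≤ p := by
    have := Finset.card_le_univ C
    rwa [ZMod.card] at this
  have hAlow : 2 * S ≤ Cᶜ.card := by
    rw [hcompl]
    have h1 : C.card ≤ (M + 1) * S := by exact_mod_cast hCu
    have h2 : (M + 3) * S = (M + 1) * S + 2 * S := by ring
    omega
  have hSpos : 1 ≤ S := by
    rw [hS, Nat.le_div_iff_mul_le (by omega)]
    omega
  have hTn : T.card = 6 * v := by exact_mod_cast hT
  obtain ⟨d, F, hF, hd, hdk, hsum⟩ := reduction C t0 hC T (3 * v - 2 * u) k (by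
      intro y hy
      have := hcount y hy
      omega) (by rw [hTn]; omega) (by
      by_contra hcon
      push Not at hcon
      have h1 : Cᶜ = ∅ := by
        rw [Finset.eq_empty_iff_forall_notMem]
        intro x hx
        rw [Finset.mem_compl] at hx
        exact hx (hcon x)
      rw [h1, Finset.card_empty] at hAlow
      omega)
  refine ⟨Cᶜ, d, F, by omega, ?_, hF, hd, hdk, ?_⟩
  · rw [hcompl, Nat.cast_sub hCp]
    have h1 : ((M : ℝ) + 1) * (p / ((M : ℝ) + 3) - 1 - 1 - γ / (8 * ((M : ℝ) + 1)) * p - 1)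
        ≤ C.card := by
      refine le_trans ?_ hCl'
      apply mul_le_mul_of_nonneg_left _ (by positivity)
      linarith
    have h2 : ((M : ℝ) + 1) * (p / ((M : ℝ) + 3) - 1 - 1 - γ / (8 * ((M : ℝ) + 1)) * p - 1)
        = p - 2 * p / ((M : ℝ) + 3) - 3 * ((M : ℝ) + 1) - γ / 8 * p := by
      field_simp
      ring
    have h3 : 2 * p / ((M : ℝ) + 3) ≤ γ / 8 * p := by
      rw [div_le_iff₀ hγ0] at hM
      rw [div_le_iff₀ (by positivity)]
      nlinarith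
    have h4 : 3 * ((M : ℝ) + 1) < γ / 4 * p := by
      have h5 : 12 * ((M : ℝ) + 1) / γ < (p : ℝ) := lt_of_lt_of_le hQ (by exact_mod_cast hPQ)
      rw [div_lt_iff₀ hγ0] at h5
      linarith
    linarith
  · intro B' hB'
    have h1 : ((restrictedSum Cᶜ B' F).card : ℝ) ≤ T.card := by exact_mod_cast hsum B' hB'
    refine h1.trans ?_
    rw [hTn]
    push_cast
    have h2 : 3 * (v : ℝ) ≤ k - 2 * u + 2 := by
      have : 3 * v + 2 * u ≤ k + 2 := by omega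
      have : (3 * (v : ℝ)) + 2 * u ≤ k + 2 := by exact_mod_cast this
      linarith
    have h3 : (k : ℝ) < 3 * ((M : ℝ) + 2) * ((u : ℝ) + 1) := by exact_mod_cast hu2
    have h4 : 9 * ((M : ℝ) + 2) ≤ k := by exact_mod_cast hk
    have h5 : κ * k + 5 ≤ 4 * (u : ℝ) := by
      have h6 : (0 : ℝ) < 3 * ((M : ℝ) + 2) := by positivity
      have h7 : κ * k ≤ k / (3 * ((M : ℝ) + 2)) := by
        rw [le_div_iff₀ h6]
        nlinarith
      have h8 : (k : ℝ) / (3 * ((M : ℝ) + 2)) < (u : ℝ) + 1 := by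
        rw [div_lt_iff₀ h6]
        linarith
      have h9 : 3 ≤ (k : ℝ) / (3 * ((M : ℝ) + 2)) := by
        rw [le_div_iff₀ h6]
        linarith
      linarith
    linarith

/-- Assertion (∗) fails by a constant factor for every degree `d` between `n - κ p` and `n - 3`. -/
theorem result :
    ∀ β : ℝ, 0 < β → β < 1 → ∃ κ : ℝ, 0 < κ ∧ ∀ n₀ : ℕ, ∃ P₀ : ℕ, ∀ p : ℕ, p.Prime → P₀ ≤ p →
      ∀ k : ℕ, 3 ≤ k → (k : ℝ) ≤ κ * p →
      ∃ (A : Finset (ZMod p)) (d : ℕ) (F : Finset (ZMod p × ZMod p)),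
        n₀ ≤ A.card ∧ (A.card : ℝ) < (1 - β) * p / 2 ∧ F ⊆ A ×ˢ A ∧ DegreeLE F d ∧
        d + k = A.card ∧
        ∀ B' ⊆ A, ((restrictedSum A B' F).card : ℝ) ≤
          2 * A.card - 2 * d - 1 - κ * (A.card - d) := by
  intro β hβ0 hβ1
  have hγ0 : 0 < 1 - β := by linarith
  have hγ1 : 1 - β < 1 := by linarith
  obtain ⟨M, hM⟩ := exists_nat_ge (16 / (1 - β))
  set κ : ℝ := (1 - β) / (16 * ((M : ℝ) + 1) * (1 + (M : ℝ) ^ 2)) with hκ
  have hκ0 : 0 < κ := by rw [hκ]; positivity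
  have hκ1 : κ ≤ 1 / 3 := by
    rw [hκ, div_le_div_iff₀ (by positivity) (by norm_num)]
    have hM0 : (0 : ℝ) ≤ M := by positivity
    nlinarith [mul_nonneg hM0 (sq_nonneg (M : ℝ))]
  refine ⟨κ, hκ0, ?_⟩
  intro n₀
  obtain ⟨P₁, hP₁⟩ := large (1 - β) hγ0 hγ1 M hM κ hκ n₀
  have hfix : ∀ k : ℕ, ∃ P : ℕ, 1 ≤ k → ∀ p : ℕ, p.Prime → P ≤ p →
      ∃ (A : Finset (ZMod p)) (d : ℕ) (F : Finset (ZMod p × ZMod p)),
        n₀ ≤ A.card ∧ (A.card : ℝ) ≤ (1 - β) / 4 * p ∧ F ⊆ A ×ˢ A ∧ DegreeLE F d ∧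
        d + k = A.card ∧ ∀ B' ⊆ A, (restrictedSum A B' F).card ≤ k + 1 := by
    intro k
    by_cases hk : 1 ≤ k
    · obtain ⟨P, hP⟩ := fixed ((1 - β) / 4) (by linarith) k n₀ hk
      exact ⟨P, fun _ => hP⟩
    · exact ⟨0, fun h => absurd h hk⟩
  choose P hP using hfix
  refine ⟨max P₁ ((Finset.range (9 * (M + 2))).sup P), ?_⟩
  intro p hp hPp k hk3 hkp
  have hp0 : (0 : ℝ) < p := by exact_mod_cast hp.pos
  by_cases hk : 9 * (M + 2) ≤ k
  · obtain ⟨A, d, F, h1, h2, h3, h4, h5, h6⟩ :=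
      hP₁ p hp ((le_max_left _ _).trans hPp) k hk hkp
    refine ⟨A, d, F, h1, h2, h3, h4, h5, ?_⟩
    intro B' hB'
    have h7 := h6 B' hB'
    have h8 : (A.card : ℝ) = d + k := by exact_mod_cast h5.symm
    rw [h8]
    linarith
  · have hkr : P k ≤ (Finset.range (9 * (M + 2))).sup P :=
      Finset.le_sup (f := P) (Finset.mem_range.mpr (by omega))
    obtain ⟨A, d, F, h1, h2, h3, h4, h5, h6⟩ :=
      hP k (by omega) p hp (hkr.trans ((le_max_right _ _).trans hPp))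
    refine ⟨A, d, F, h1, ?_, h3, h4, h5, ?_⟩
    · nlinarith [mul_pos hγ0 hp0]
    · intro B' hB'
      have h7 : ((restrictedSum A B' F).card : ℝ) ≤ k + 1 := by exact_mod_cast h6 B' hB'
      have h8 : (A.card : ℝ) = d + k := by exact_mod_cast h5.symm
      rw [h8]
      have h9 : (3 : ℝ) ≤ k := by exact_mod_cast hk3
      have h10 : κ * k ≤ 1 / 3 * k := mul_le_mul_of_nonneg_right hκ1 (by linarith)
      linarith

end Pool.Agent.Results.MP_329cea_co.FailsAllDegrees
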