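import Pool.Agent.Lib.MP_329cea_co.Digits

set_option autoImplicit false

namespace Pool.Agent.Results.MP_329cea_co.SharpFixedGap

open Finset Pool.Agent.Lib.MP_329cea_co

lemma card_single {p : ℕ} (A : Finset (ZMod p)) (F : Finset (ZMod p × ZMod p)) (d k : ℕ)
    (hF : DegreeLE F d) (hd : d + k = A.card) (b : ZMod p) :
    k ≤ (restrictedSum A {b} F).card := by
  classical
  have h1 : (A.filter (fun a => (a, b) ∈ F)).card ≤ d := by
    refine le_trans ?_ (hF.2 b)
    apply Finset.card_le_card_of_injOn (fun a => (a, b))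
    · intro a ha
      simp only [Finset.coe_filter, Set.mem_ofPred_eq] at ha ⊢
      exact ⟨ha.2, trivial⟩
    · intro a _ a' _ h
      exact (Prod.mk.inj h).1
  have h2 := Finset.card_filter_add_card_filter_not (s := A) (fun a => (a, b) ∈ F)
  have h3 : k ≤ (A.filter (fun a => (a, b) ∉ F)).card := by omega
  refine h3.trans ?_
  apply Finset.card_le_card_of_injOn (fun a => a + b)
  · intro a ha
    simp only [Finset.coe_filter, Set.mem_ofPred_eq] at ha
    simp only [restrictedSum, Finset.mem_coe, Finset.mem_image, Finset.mem_filter,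
      Finset.mem_product, Finset.mem_singleton]
    exact ⟨(a, b), ⟨⟨ha.1, rfl⟩, ha.2⟩, rfl⟩
  · intro a _ a' _ h
    exact add_right_cancel h

lemma mono {p : ℕ} (A B B' : Finset (ZMod p)) (F : Finset (ZMod p × ZMod p)) (h : B ⊆ B') :
    restrictedSum A B F ⊆ restrictedSum A B' F := by
  unfold restrictedSum
  apply Finset.image_subset_image
  apply Finset.filter_subset_filter
  exact Finset.product_subset_product_right h

lemma lower {p : ℕ} (hp : p.Prime) (A : Finset (ZMod p)) (F : Finset (ZMod p × ZMod p))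
    (d k : ℕ) (hk : 2 ≤ k) (hAp : A.card < p) (hF : DegreeLE F d) (hd : d + k = A.card) :
    ∃ B' ⊆ A, B'.card ≤ 2 ∧ k + 1 ≤ (restrictedSum A B' F).card := by
  classical
  have : Fact p.Prime := ⟨hp⟩
  by_contra hcon
  push Not at hcon
  have hsame : ∀ b ∈ A, ∀ b' ∈ A, restrictedSum A {b} F = restrictedSum A {b'} F := by
    intro b hb b' hb'
    have h0 : ({b, b'} : Finset (ZMod p)) ⊆ A := by
      intro x hx
      rw [Finset.mem_insert, Finset.mem_singleton] at hx
      rcases hx with rfl | rfl
      · exact hb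
      · exact hb'
    have h1 := hcon {b, b'} h0 Finset.card_le_two
    have h2 : restrictedSum A {b} F = restrictedSum A {b, b'} F := by
      apply Finset.eq_of_subset_of_card_le (mono _ _ _ _ (by simp))
      have := card_single A F d k hF hd b
      omega
    have h3 : restrictedSum A {b'} F = restrictedSum A {b, b'} F := by
      apply Finset.eq_of_subset_of_card_le (mono _ _ _ _ (by simp))
      have := card_single A F d k hF hd b'
      omega
    rw [h2, h3]
  have hne : A.Nonempty := by
    rw [← Finset.card_pos]; omega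
  obtain ⟨b0, hb0⟩ := hne
  have h2 : 1 < (restrictedSum A {b0} F).card := by
    have := card_single A F d k hF hd b0
    omega
  rw [Finset.one_lt_card] at h2
  obtain ⟨s, hs, s', hs', hss⟩ := h2
  have hback : ∀ t ∈ restrictedSum A {b0} F, ∀ b ∈ A, t - b ∈ A := by
    intro t ht b hb
    rw [hsame b0 hb0 b hb] at ht
    simp only [restrictedSum, Finset.mem_image, Finset.mem_filter, Finset.mem_product,
      Finset.mem_singleton] at ht
    obtain ⟨e, ⟨⟨h1, h2⟩, _⟩, h3⟩ := ht
    have : t - b = e.1 := by rw [← h3, h2]; ring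
    rw [this]
    exact h1
  set c : ZMod p := s' - s with hc
  have hc0 : c ≠ 0 := by
    rw [hc, sub_ne_zero]
    exact fun h => hss h.symm
  have hstep : ∀ a ∈ A, a + c ∈ A := by
    intro a ha
    have h1 := hback s hs a ha
    have h2 := hback s' hs' _ h1
    rw [show a + c = s' - (s - a) by rw [hc]; ring]
    exact h2
  have hmul : ∀ n : ℕ, b0 + (n : ZMod p) * c ∈ A := by
    intro n
    induction n with
    | zero => simpa using hb0
    | succ n ih =>
      have := hstep _ ih
      rw [show b0 + ((n + 1 : ℕ) : ZMod p) * c = b0 + (n : ZMod p) * c + c by push_cast; ring]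
      exact this
  have huniv : A = Finset.univ := by
    rw [Finset.eq_univ_iff_forall]
    intro x
    have h1 := hmul ((x - b0) / c).val
    rw [ZMod.natCast_zmod_val, div_mul_cancel₀ _ hc0, add_sub_cancel] at h1
    exact h1
  rw [huniv, Finset.card_univ, ZMod.card] at hAp
  exact lt_irrefl _ hAp

/-- For every fixed `k = n - d ≥ 2` the optimal lower bound for `|A +_F B'|` with boundedly many
summands (or with no bound at all) is exactly `k + 1`. -/
theorem result :
    ∀ k : ℕ, 2 ≤ k →
      (∀ p : ℕ, p.Prime → ∀ (A : Finset (ZMod p)) (d : ℕ) (F : Finset (ZMod p × ZMod p)),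
        A.card < p → DegreeLE F d → d + k = A.card →
        ∃ B' ⊆ A, B'.card ≤ 2 ∧ k + 1 ≤ (restrictedSum A B' F).card) ∧
      (∀ ε : ℝ, 0 < ε → ∀ n₀ : ℕ, ∃ P₀ : ℕ, ∀ p : ℕ, p.Prime → P₀ ≤ p →
        ∃ (A : Finset (ZMod p)) (d : ℕ) (F : Finset (ZMod p × ZMod p)),
          n₀ ≤ A.card ∧ (A.card : ℝ) ≤ ε * p ∧ F ⊆ A ×ˢ A ∧ DegreeLE F d ∧ d + k = A.card ∧
          ∀ B' ⊆ A, (restrictedSum A B' F).card ≤ k + 1) := by
  intro k hk
  refine ⟨?_, ?_⟩
  · intro p hp A d F hAp hF hd
    exact lower hp A F d k hk hAp hF hd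
  · intro ε hε n₀
    exact fixed ε hε k n₀ (by omega)

end Pool.Agent.Results.MP_329cea_co.SharpFixedGap
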